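import Pool.Agent.V5helper15.RB.Main

/-!
# MP_67b4ec_an, Q1: for the circle group the square of the radical of `L¹(G)''` is zero

`L1T` is the Banach algebra `L¹(𝕋)` of the circle group `𝕋 = ℝ / ℤ` (Mathlib's `Lp ℂ 1` for the normalised
Haar measure) with the convolution product, `Bidual A` is the second dual `A''` of a normed algebra `A`
(possibly without identity) with the first Arens product, and `rad B` is the Jacobson radical of an algebra
`B` possibly without identity (the intersection of `B` with the Jacobson radical of the algebra with adjoined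
identity).

The radical of `(L¹(𝕋)'', □)` consists of the functionals on `L¹(𝕋)' = L^∞(𝕋)` which vanish at the continuous
functions, and `Φ □ Ψ = 0` for all `Φ` in `L¹(𝕋)''` and all `Ψ` in the radical. In particular
`rad(L¹(𝕋)'')^{□ 2} = {0}`: there is an infinite locally compact group as asked for in Q1.

Proof. For `f ∈ L^∞(𝕋)` and `a ∈ L¹(𝕋)` the function `f · a` is continuous, a limit of multiples of the
characters `χ_n`, since `f · e_n = f(e_n) χ_n` for the exponentials `e_n`, which span a dense subspace of
`L¹(𝕋)`. The evaluations `Φ ↦ Φ(χ_n)` are multiplicative on `L¹(𝕋)''`, so they vanish on the radical. Hence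
`Ψ (f · a) = 0` for `Ψ` in the radical, that is, `Ψ · f = 0` and `Φ □ Ψ = 0`.
-/

set_option autoImplicit false

open MeasureTheory AddCircle

namespace Pool.Agent.Results.MP_67b4ec_an.CircleGroup

open Pool.Agent.V5helper15.RB

/-- **Q1 for the circle group.** The product of `L¹(𝕋)` is the convolution; every product `Φ □ Ψ` with `Ψ` in
the radical of `L¹(𝕋)''` is zero, in particular the square of the radical is zero; and the radical consists of
the functionals which vanish at the continuous functions. -/
theorem result :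
    Infinite UnitAddCircle ∧
    (∀ f g : L1T, ((f * g : L1T) : UnitAddCircle → ℂ) =ᵐ[haarAddCircle]
      fun x => ∫ t, f t * g (x - t) ∂haarAddCircle) ∧
    (∀ Φ Ψ : Bidual L1T, Φ ∈ rad (Bidual L1T) → Ψ ∈ rad (Bidual L1T) → Φ * Ψ = 0) ∧
    (∀ Φ Ψ : Bidual L1T, Ψ ∈ rad (Bidual L1T) → Φ * Ψ = 0) ∧
    rad (Bidual L1T) = {Ψ | ∀ (φ : C(UnitAddCircle, ℂ)) (F : Dual1 L1T),
      (∀ f : L1T, F f = ∫ t, φ t * f t ∂haarAddCircle) → Ψ F = 0} := by
  refine ⟨?_, fun f g => L1T.conv_ae f g, fun Φ Ψ _ h => mul_rad h Φ, fun Φ Ψ h => mul_rad h Φ, rad_eq'⟩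
  have h : Infinite (Set.Ico (0 : ℝ) (0 + 1)) := by
    rw [Set.infinite_coe_iff]
    exact Set.Ico_infinite (by norm_num)
  exact Infinite.of_injective _ (AddCircle.equivIco (1 : ℝ) 0).symm.injective

end Pool.Agent.Results.MP_67b4ec_an.CircleGroup
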